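import Pool.Agent.Helper80.HG.St

/-!
Module CE of project HG (MP_1bacb5_al): commutators of elements with displacement `O(d w)` have
displacement `o(d w)`.
-/

set_option autoImplicit false

namespace Pool.Agent.Helper13.HG

open Pool.Agent.Helper80.HG Filter Topology Asymptotics
open scoped commutatorElement

theorem ce_inv {H : Set (ℝ → ℝ)} {Γ : Type} [Group Γ] {θ : Γ → ℝ → ℝ} (h : SB H θ) (g : Γ) :
    dsp θ g⁻¹ =O[atTop] dsp θ g := by
  have h1 := (h.invd g).isBigO.sub (isBigO_refl (dsp θ g) atTop)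
  refine h1.congr_left ?_
  intro x
  ring

theorem ce_pos (hLN : StLN) (hDP : StDP) (hCM : StCM) {H : Set (ℝ → ℝ)} (hH : Bas H)
    {Γ : Type} [Group Γ] {θ : Γ → ℝ → ℝ} (h : SB H θ) (x y w : Γ) (hw : Pos θ w)
    (hx : dsp θ x =O[atTop] dsp θ w) (hy : dsp θ y =O[atTop] dsp θ w) :
    dsp θ ⁅x, y⁆ =o[atTop] dsp θ w := by
  obtain ⟨L, hL, hLt, hLe0⟩ := h.ps w hw
  have hLe : dsp θ w =ᶠ[atTop] fun z => Real.exp (-L z) := hLe0
  have hx' : dsp θ x =O[atTop] fun z => Real.exp (-L z) :=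
    hx.trans_eventuallyEq hLe
  have hy' : dsp θ y =O[atTop] fun z => Real.exp (-L z) :=
    hy.trans_eventuallyEq hLe
  have h1 := hCM hLN hDP H hH Γ θ h L hL hLt (1 / 2) (by norm_num) (by norm_num) x y hx' hy'
  have h2 : (fun z => Real.exp (-((2 - 1 / 2) * L z))) =o[atTop] fun z => Real.exp (-L z) := by
    rw [Real.isLittleO_exp_comp_exp_comp]
    have h3 : (fun z => -L z - -((2 - 1 / 2) * L z)) = fun z => (1 / 2) * L z := by
      funext z
      ring
    rw [h3]
    exact Tendsto.const_mul_atTop (by norm_num) hLt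
  exact (h1.trans_isLittleO h2).trans_eventuallyEq hLe.symm

theorem hCE : StCE := by
  intro hLN hDP hCM H hH Γ _ θ h x y w hw hx hy
  rcases h.tri w with h1 | h1 | h1
  · exact absurd h1 hw
  · exact ce_pos hLN hDP hCM hH h x y w h1 hx hy
  · have h2 : dsp θ w =O[atTop] dsp θ w⁻¹ := by
      have h3 := ce_inv h w⁻¹
      rwa [inv_inv] at h3
    exact (ce_pos hLN hDP hCM hH h x y w⁻¹ h1 (hx.trans h2) (hy.trans h2)).trans_isBigO
      (ce_inv h w)

end Pool.Agent.Helper13.HG
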