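import Mathlib
import Pool.Agent.Helper35.HG.StC

/-!
Project HG (MP_925021_gt), module GRC: decay of the gradient of the mean curvature.
-/

set_option autoImplicit false

namespace Helper13.HG

open Helper35.HG Helper35.HC Helper35.HSF Helper35.MS Helper35.PI Helper35.PI2 Helper32.CL
open scoped ContDiff Manifold Topology ENNReal BigOperators
open MeasureTheory Set Filter

private theorem grc_coef (n : ℕ) (hn : 2 ≤ n) (G e : ℝ) (hG : 0 ≤ G)
    (h : e ≤ n * (n + 2) / (2 * ((n : ℝ) - 1)) * G) : e ≤ 2 * n * G := by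
  have hn' : (2 : ℝ) ≤ n := by exact_mod_cast hn
  have h1 : n * ((n : ℝ) + 2) / (2 * ((n : ℝ) - 1)) ≤ 2 * n := by
    rw [div_le_iff₀ (by linarith)]
    nlinarith
  exact h.trans (mul_le_mul_of_nonneg_right h1 hG)

private theorem grc_num (n : ℕ) (D K₁ Lam b η t t₁ G R Y θ e he : ℝ) (hK : K₁ = 65 * n * D) (hD1 : 1 ≤ D)
    (hL : 0 < Lam) (hη : 0 < η) (hG : 0 ≤ G) (hθ : 0 ≤ θ) (hθb : θ ≤ b) (hY : 0 ≤ Y)
    (hYL : Y ≤ Lam) (ht1 : t₁ ≤ t) (ht2 : t - t₁ ≤ 1 / Lam) (heG : e ≤ 2 * n * G)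
    (hR : R ≤ 10 * D * Y * θ) (hhe : he ≤ 128 * n * D * (Y * G)) :
    (t - t₁) * he + e + K₁ * (-2 * G + 2 * R) - (20 * D * K₁ * Lam * b + η) < 0 := by
  have hn0 : (0 : ℝ) ≤ n := Nat.cast_nonneg n
  have hD0 : 0 ≤ D := by linarith
  have h0 : 0 ≤ t - t₁ := by linarith
  have h1 : (t - t₁) * Y ≤ 1 := by
    calc (t - t₁) * Y ≤ (1 / Lam) * Lam := mul_le_mul ht2 hYL hY (by positivity)
      _ = 1 := by field_simp
  have h2 : (t - t₁) * he ≤ 128 * n * D * G := by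
    calc (t - t₁) * he ≤ (t - t₁) * (128 * n * D * (Y * G)) := mul_le_mul_of_nonneg_left hhe h0
      _ = ((t - t₁) * Y) * (128 * n * D * G) := by ring
      _ ≤ 1 * (128 * n * D * G) := mul_le_mul_of_nonneg_right h1 (by positivity)
      _ = 128 * n * D * G := one_mul _
  have h3 : Y * θ ≤ Lam * b := mul_le_mul hYL hθb hθ hL.le
  have hK0 : 0 ≤ K₁ := by rw [hK]; positivity
  have h4 : K₁ * (2 * R) ≤ 20 * D * K₁ * Lam * b := by
    have h6 : D * (Y * θ) ≤ D * (Lam * b) := mul_le_mul_of_nonneg_left h3 hD0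
    have : K₁ * (2 * R) ≤ K₁ * (20 * (D * (Lam * b))) :=
      mul_le_mul_of_nonneg_left (by linarith) hK0
    linarith
  have h5 : K₁ * (-2 * G) = -(130 * n * D * G) := by rw [hK]; ring
  have h6 : K₁ * (-2 * G + 2 * R) = K₁ * (-2 * G) + K₁ * (2 * R) := by ring
  have h7 : 2 * n * G ≤ 2 * n * D * G := by
    have : 0 ≤ n * G * (D - 1) := mul_nonneg (mul_nonneg hn0 hG) (by linarith)
    linarith
  rw [h6, h5]
  linarith

theorem hGRC (hTHB : StTHB) (hPKB : StPKB) (hFZP : StFZP) (hHTR : StHTR) (hHSM : StHSM)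
    (hSMF : StSMF) : StGRC := by
  intro n hn N M _ _ _ _ _ _ T F ts κ₀ δ C₀ hD
  obtain ⟨t₂', C, σ, Λ₀', ht₂', hC, hσ0, hσ1, hΛ₀', hth⟩ :=
    hTHB n hn N M T F ts κ₀ δ C₀ hD
  have hn' : (2 : ℝ) ≤ n := by exact_mod_cast hn
  have himm := hD.fl.toIsImmJ
  obtain ⟨heS, he0, _⟩ := hHSM n N M (Ioo 0 T) F himm
  obtain ⟨_, _, _, _, hθS, _⟩ := hSMF n N M (Ioo 0 T) F himm
  have hC₀ : 1 ≤ C₀ := hD.C1
  obtain ⟨K₁, hK₁⟩ : ∃ K₁ : ℝ, K₁ = 65 * n * C₀ := ⟨_, rfl⟩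
  have hK1 : 1 ≤ K₁ := by rw [hK₁]; nlinarith
  have hC0 : 0 < C := by linarith
  have hts := hD.ts0
  have hlt : t₂' < (t₂' + T) / 2 := by linarith [ht₂'.2]
  have hlt2 : (t₂' + T) / 2 < T := by linarith [ht₂'.2]
  have hCK : 1 ≤ C₀ * K₁ := one_le_mul_of_one_le_of_one_le hC₀ hK1
  have hCC : C ≤ 21 * (C₀ * K₁) * C := by nlinarith
  refine ⟨(t₂' + T) / 2, 21 * (C₀ * K₁) * C, σ, max Λ₀' (1 / ((t₂' + T) / 2 - t₂')), hD,
    ⟨by linarith [ht₂'.1], hlt2⟩, by linarith, hσ0, hσ1, le_max_of_le_left hΛ₀', ?_, ?_⟩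
  · intro t₀ ht₀ Lam hLam hY q
    have h1 := hth t₀ ⟨by linarith [ht₀.1], ht₀.2⟩ Lam ((le_max_left _ _).trans hLam) hY q
    have hLam1 : 1 ≤ Lam := hΛ₀'.trans ((le_max_left _ _).trans hLam)
    have h2 : 0 ≤ Lam ^ (1 - σ) := Real.rpow_nonneg (by linarith) _
    exact h1.trans (mul_le_mul_of_nonneg_right hCC h2)
  · intro t₀ ht₀ Lam hLam hY q₀
    have hLam1 : 1 ≤ Lam := hΛ₀'.trans ((le_max_left _ _).trans hLam)
    have hLam0 : 0 < Lam := by linarith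
    have hLam' : Λ₀' ≤ Lam := (le_max_left _ _).trans hLam
    have hgap : 1 / Lam ≤ (t₂' + T) / 2 - t₂' := by
      have h1 : 1 / ((t₂' + T) / 2 - t₂') ≤ Lam := (le_max_right _ _).trans hLam
      rw [div_le_iff₀ (by linarith)] at h1
      rw [div_le_iff₀ hLam0]
      linarith
    obtain ⟨t₁, ht₁⟩ : ∃ t₁ : ℝ, t₁ = t₀ - 1 / Lam := ⟨_, rfl⟩
    have hinv : 0 < 1 / Lam := by positivity
    have ht₁' : t₂' ≤ t₁ := by rw [ht₁]; linarith [ht₀.1]
    have hlt1 : t₁ < t₀ := by rw [ht₁]; linarith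
    have hin : ∀ t ∈ Icc t₁ t₀, t ∈ Ico ts T := fun t ht =>
      ⟨by linarith [ht.1, ht₂'.1], lt_of_le_of_lt ht.2 ht₀.2⟩
    have hJ : Icc t₁ t₀ ⊆ Ioo 0 T := fun t ht =>
      ⟨by linarith [(hin t ht).1, hts.1], (hin t ht).2⟩
    obtain ⟨b, hb⟩ : ∃ b : ℝ, b = C * Lam ^ (1 - σ) := ⟨_, rfl⟩
    have hθb : ∀ t ∈ Icc t₁ t₀, ∀ q, thN n F q t ≤ b := by
      intro t ht q
      rw [hb]
      exact hth t ⟨ht₁'.trans ht.1, (hin t ht).2⟩ Lam hLam'
        (fun s hs q => hY s ⟨hs.1, hs.2.trans ht.2⟩ q) q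
    have hpow : Lam * Lam ^ (1 - σ) = Lam ^ (2 - σ) := by
      have : (2 - σ : ℝ) = 1 + (1 - σ) := by ring
      rw [this, Real.rpow_add hLam0, Real.rpow_one]
    -- the estimate with an error
    have hmain : ∀ η : ℝ, 0 < η → eH n F q₀ t₀ ≤ 21 * (C₀ * K₁) * C * Lam ^ (2 - σ) + η * (Lam + 1) := by
      intro η hη
      obtain ⟨a₁, ha₁⟩ : ∃ a₁ : ℝ → ℝ, a₁ = fun t => t - t₁ := ⟨_, rfl⟩
      obtain ⟨a₂, ha₂⟩ : ∃ a₂ : ℝ → ℝ,
          a₂ = fun t => -(K₁ * b) - η - (20 * C₀ * K₁ * Lam * b + η) * (t - t₁) := ⟨_, rfl⟩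
      have hd1 : ∀ t, deriv a₁ t = 1 := by
        intro t
        rw [ha₁]
        simp
      have hd2 : ∀ t, deriv a₂ t = -(20 * C₀ * K₁ * Lam * b + η) := by
        intro t
        rw [ha₂]
        have h : HasDerivAt (fun t : ℝ => -(K₁ * b) - η - (20 * C₀ * K₁ * Lam * b + η) * (t - t₁))
            (-((20 * C₀ * K₁ * Lam * b + η) * 1)) t := by
          have h1 : HasDerivAt (fun t : ℝ => t - t₁) 1 t := (hasDerivAt_id t).sub_const t₁
          exact (h1.const_mul (20 * C₀ * K₁ * Lam * b + η)).const_sub _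
        rw [h.deriv, mul_one]
      have hs1 : ContDiffOn ℝ ∞ a₁ (Ioo 0 T) := by
        rw [ha₁]
        exact (contDiff_id.sub contDiff_const).contDiffOn
      have hs2 : ContDiffOn ℝ ∞ a₂ (Ioo 0 T) := by
        rw [ha₂]
        exact (contDiff_const.sub (contDiff_const.mul (contDiff_id.sub contDiff_const))).contDiffOn
      obtain ⟨_, _, _, hR4⟩ := hHTR n N M (Ioo 0 T) F himm (eH n F) (eH n F) heS heS
      obtain ⟨hA1S, hA1⟩ := hR4 a₁ hs1
      obtain ⟨hA2S, hA2⟩ := hR4 a₂ hs2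
      obtain ⟨⟨hf1S, hf1⟩, _, _, _⟩ := hHTR n N M (Ioo 0 T) F himm (fun (_ : M) t => a₁ t)
        (eH n F) hA1S heS
      obtain ⟨_, hlin, _, _⟩ := hHTR n N M (Ioo 0 T) F himm
        (fun q t => a₁ t * eH n F q t) (thN n F) hf1S hθS
      obtain ⟨hf2S, hf2⟩ := hlin 1 K₁
      obtain ⟨_, hlin', _, _⟩ := hHTR n N M (Ioo 0 T) F himm
        (fun q t => 1 * (a₁ t * eH n F q t) + K₁ * thN n F q t) (fun (_ : M) t => a₂ t) hf2S hA2S
      obtain ⟨hf3S, hf3⟩ := hlin' 1 1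
      have hneg := hFZP n N M (Ioo 0 T) F hD.fl
        (fun q t => 1 * (1 * (a₁ t * eH n F q t) + K₁ * thN n F q t) + 1 * a₂ t) t₁ t₀ hf3S hJ
        (by
          intro q
          have h1 := hθb t₁ ⟨le_refl _, hlt1.le⟩ q
          have h2 : a₁ t₁ = 0 := by rw [ha₁]; simp
          have h3 : a₂ t₁ = -(K₁ * b) - η := by rw [ha₂]; simp
          simp only [h2, h3]
          have h4 : K₁ * thN n F q t₁ ≤ K₁ * b := mul_le_mul_of_nonneg_left h1 (by linarith)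
          linarith)
        (by
          intro q t ht _ _ _
          have htI : t ∈ Icc t₁ t₀ := ⟨ht.1.le, ht.2⟩
          have htJ := hJ htI
          obtain ⟨G, R, Z, a, w, hG, _, _, hθ0, _, _, heG, _, _, hR, _, _, hhθ, _, hhe, _⟩ :=
            hPKB n hn N M T F ts κ₀ δ C₀ hD t (hin t htI) q _ _ _ rfl rfl rfl
          rw [(hf3 q t htJ).2, (hf2 q t htJ).2, (hf1 q t htJ).2, (hA1 q t htJ).2,
            (hA2 q t htJ).2, (hA1 q t htJ).1, inner_zero_left, hd1, hd2, hhθ]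
          have h1 := grc_num n C₀ K₁ Lam b η t t₁ G R (‖HH (n := n) F q t‖ ^ 2) (thN n F q t)
            (eH n F q t) (htN n F (eH n F) q t) hK₁ hC₀ hLam0 hη hG hθ0 (hθb t htI q)
            (sq_nonneg _) (hY t ⟨(hin t htI).1, ht.2⟩ q) ht.1.le
            (by
              have : t - t₁ ≤ t₀ - t₁ := by linarith [ht.2]
              rw [ht₁] at this ⊢
              linarith)
            (grc_coef n hn G _ hG heG) hR hhe
          have h2 : a₁ t = t - t₁ := by rw [ha₁]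
          rw [h2]
          linarith)
        q₀ t₀ ⟨hlt1.le, le_refl _⟩
      obtain ⟨G, R, Z, a, w, hG, _, _, hθ0, _⟩ :=
        hPKB n hn N M T F ts κ₀ δ C₀ hD t₀ (hin t₀ ⟨hlt1.le, le_refl _⟩) q₀ _ _ _ rfl rfl rfl
      have h2 : a₁ t₀ = 1 / Lam := by rw [ha₁, ht₁]; ring
      have h3 : a₂ t₀ = -(K₁ * b) - η - (20 * C₀ * K₁ * Lam * b + η) * (1 / Lam) := by
        rw [ha₂, ht₁]; ring
      simp only [h2, h3] at hneg
      have h4 : 0 ≤ K₁ * thN n F q₀ t₀ := mul_nonneg (by linarith) hθ0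
      have h5 : 1 / Lam * eH n F q₀ t₀ < K₁ * b + η + (20 * C₀ * K₁ * Lam * b + η) * (1 / Lam) := by
        linarith
      have h6 : Lam * (1 / Lam * eH n F q₀ t₀) <
          Lam * (K₁ * b + η + (20 * C₀ * K₁ * Lam * b + η) * (1 / Lam)) :=
        mul_lt_mul_of_pos_left h5 hLam0
      have h7 : Lam * (1 / Lam * eH n F q₀ t₀) = eH n F q₀ t₀ := by
        rw [← mul_assoc, mul_one_div_cancel hLam0.ne', one_mul]
      have h8 : Lam * (K₁ * b + η + (20 * C₀ * K₁ * Lam * b + η) * (1 / Lam)) =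
          (K₁ + 20 * C₀ * K₁) * (Lam * b) + η * (Lam + 1) := by
        have : Lam * (1 / Lam) = 1 := mul_one_div_cancel hLam0.ne'
        linear_combination (20 * C₀ * K₁ * Lam * b + η) * this
      have h9 : Lam * b = C * Lam ^ (2 - σ) := by rw [hb, ← hpow]; ring
      have h10 : (K₁ + 20 * C₀ * K₁) * (Lam * b) ≤ 21 * (C₀ * K₁) * (Lam * b) := by
        refine mul_le_mul_of_nonneg_right ?_ (by rw [h9]; positivity)
        have : 0 ≤ (C₀ - 1) * K₁ := mul_nonneg (by linarith) (by linarith)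
        linarith
      rw [h7, h8] at h6
      have h11 : 21 * (C₀ * K₁) * (Lam * b) = 21 * (C₀ * K₁) * C * Lam ^ (2 - σ) := by
        rw [h9]; ring
      linarith
    refine le_of_forall_pos_le_add fun ε hε => ?_
    have h1 := hmain (ε / (Lam + 1)) (by positivity)
    rwa [div_mul_cancel₀ ε (by linarith : (Lam + 1 : ℝ) ≠ 0)] at h1

end Helper13.HG
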