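import Mathlib
import Pool.Agent.Helper35.HG.StA

/-!
Project HG (MP_925021_gt), module PB1: the form of the pinching `P2`.
-/

set_option autoImplicit false

namespace Helper13.HG

open Helper35.HG Helper35.HC Helper35.HSF Helper35.MS Helper35.PI Helper35.PI2 Helper32.CL
open scoped BigOperators

section Mat

variable {n : ℕ}

theorem pb_ip0_nonneg (X : Fin n → Fin n → ℝ) : 0 ≤ ip0 X X := by
  unfold ip0
  exact Finset.sum_nonneg fun i _ => Finset.sum_nonneg fun j _ => mul_self_nonneg _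

theorem pb_ip0_comm (X Y : Fin n → Fin n → ℝ) : ip0 X Y = ip0 Y X := by
  unfold ip0
  exact Finset.sum_congr rfl fun i _ => Finset.sum_congr rfl fun j _ => mul_comm _ _

theorem pb_cs (U W : Fin n → Fin n → ℝ) :
    (∑ i, ∑ j, U i j * W i j) ^ 2 ≤ (∑ i, ∑ j, U i j ^ 2) * (∑ i, ∑ j, W i j ^ 2) := by
  have h := Finset.sum_mul_sq_le_sq_mul_sq (Finset.univ : Finset (Fin n × Fin n))
    (fun p => U p.1 p.2) (fun p => W p.1 p.2)
  rw [Fintype.sum_prod_type, Fintype.sum_prod_type, Fintype.sum_prod_type] at h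
  exact h

theorem pb_ip0_cs (X Y : Fin n → Fin n → ℝ) : ip0 X Y ^ 2 ≤ ip0 X X * ip0 Y Y := by
  have h := pb_cs (tl X) (tl Y)
  have e : ∀ Z : Fin n → Fin n → ℝ, (∑ i, ∑ j, tl Z i j ^ 2) = ip0 Z Z := by
    intro Z
    unfold ip0
    exact Finset.sum_congr rfl fun i _ => Finset.sum_congr rfl fun j _ => sq _
  rw [e, e] at h
  exact h

theorem pb_ip0_smul (c : ℝ) (X : Fin n → Fin n → ℝ) :
    ip0 (fun i j => c * X i j) (fun i j => c * X i j) = c ^ 2 * ip0 X X := by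
  have h : ∀ i j, tl (fun i j => c * X i j) i j = c * tl X i j := by
    intro i j
    have hm : Helper35.HC.mt (fun i j => c * X i j) = c * Helper35.HC.mt X := by
      unfold Helper35.HC.mt
      rw [← Finset.mul_sum]
      ring
    unfold tl
    rw [hm]
    split_ifs <;> ring
  unfold ip0
  simp only [h]
  rw [Finset.mul_sum]
  refine Finset.sum_congr rfl fun i _ => ?_
  rw [Finset.mul_sum]
  refine Finset.sum_congr rfl fun j _ => ?_
  ring

theorem pb_bil_le (X : Fin n → Fin n → ℝ) (c d : Fin n → ℝ) (h : OP c d) :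
    bil X c d ^ 2 ≤ ip0 X X := by
  obtain ⟨hc, hd, hcd⟩ := h
  have h1 : bil X c d = ∑ i, ∑ j, tl X i j * (c i * d j) := by
    unfold bil tl
    have : ∑ i, ∑ j, (X i j - if i = j then Helper35.HC.mt X else 0) * (c i * d j)
        = ∑ i, ∑ j, X i j * (c i * d j) - ∑ i, ∑ j, (if i = j then Helper35.HC.mt X else 0) * (c i * d j) := by
      rw [← Finset.sum_sub_distrib]
      refine Finset.sum_congr rfl fun i _ => ?_
      rw [← Finset.sum_sub_distrib]
      refine Finset.sum_congr rfl fun j _ => ?_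
      ring
    rw [this]
    have h0 : ∑ i, ∑ j, (if i = j then Helper35.HC.mt X else 0) * (c i * d j) = 0 := by
      have : ∀ i : Fin n, ∑ j, (if i = j then Helper35.HC.mt X else 0) * (c i * d j)
          = Helper35.HC.mt X * (c i * d i) := by
        intro i
        simp [ite_mul]
      simp only [this]
      rw [← Finset.mul_sum, hcd, mul_zero]
    rw [h0, sub_zero]
  have h2 : ∑ i, ∑ j, (c i * d j) ^ 2 = 1 := by
    have : ∀ i : Fin n, ∑ j, (c i * d j) ^ 2 = c i ^ 2 := by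
      intro i
      have : ∀ j : Fin n, (c i * d j) ^ 2 = c i ^ 2 * d j ^ 2 := fun j => by ring
      simp only [this]
      rw [← Finset.mul_sum, hd, mul_one]
    simp only [this]
    exact hc
  have h3 := pb_cs (tl X) (fun i j => c i * d j)
  rw [h2, mul_one] at h3
  rw [h1]
  refine h3.trans (le_of_eq ?_)
  unfold ip0
  exact Finset.sum_congr rfl fun i _ => Finset.sum_congr rfl fun j _ => sq _

theorem pb_cq_self (X : Fin n → Fin n → ℝ) : cq X X = 0 := by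
  unfold cq
  simp

theorem pb_sum {k : ℕ} (H : Fin (k + 2) → Fin n → Fin n → ℝ) (F b : ℝ)
    (hb : b = ∑ j : Fin (k + 1), ip0 (H j.succ) (H j.succ))
    (hrow : ∀ j : Fin (k + 1), cq (H 0) (H j.succ) ≤ 4 * F * ip0 (H j.succ) (H j.succ) ∧
      cq (H j.succ) (H 0) ≤ 4 * F * ip0 (H j.succ) (H j.succ))
    (hcqj : ∀ i j : Fin (k + 1), cq (H i.succ) (H j.succ)
      ≤ 4 * (ip0 (H i.succ) (H i.succ) * ip0 (H j.succ) (H j.succ))) :
    ∑ α, ∑ β, (ip0 (H α) (H β) ^ 2 + cq (H α) (H β))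
      ≤ ip0 (H 0) (H 0) ^ 2 + 2 * (ip0 (H 0) (H 0) * b + 4 * F * b) + 5 * b ^ 2 := by
  obtain ⟨a, ha⟩ : ∃ a : ℝ, a = ip0 (H 0) (H 0) := ⟨_, rfl⟩
  have hz : ∑ β, (ip0 (H 0) (H β) ^ 2 + cq (H 0) (H β)) ≤ a ^ 2 + (a + 4 * F) * b := by
    rw [Fin.sum_univ_succ, pb_cq_self, add_zero, ← ha]
    have : ∑ j : Fin (k + 1), (ip0 (H 0) (H j.succ) ^ 2 + cq (H 0) (H j.succ))
        ≤ ∑ j : Fin (k + 1), (a + 4 * F) * ip0 (H j.succ) (H j.succ) := by
      refine Finset.sum_le_sum fun j _ => ?_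
      have h1 := pb_ip0_cs (H 0) (H j.succ)
      have h2 := (hrow j).1
      rw [← ha] at h1
      rw [add_mul]
      exact add_le_add h1 h2
    rw [← Finset.mul_sum, ← hb] at this
    linarith
  have hs : ∀ i : Fin (k + 1), ∑ β, (ip0 (H i.succ) (H β) ^ 2 + cq (H i.succ) (H β))
      ≤ (a + 4 * F + 5 * b) * ip0 (H i.succ) (H i.succ) := by
    intro i
    rw [Fin.sum_univ_succ]
    have h7 : ip0 (H i.succ) (H 0) ^ 2 + cq (H i.succ) (H 0)
        ≤ (a + 4 * F) * ip0 (H i.succ) (H i.succ) := by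
      have h1 := pb_ip0_cs (H i.succ) (H 0)
      have h2 := (hrow i).2
      rw [← ha, mul_comm] at h1
      rw [add_mul]
      exact add_le_add h1 h2
    have h8 : ∑ j : Fin (k + 1), (ip0 (H i.succ) (H j.succ) ^ 2 + cq (H i.succ) (H j.succ))
        ≤ ∑ j : Fin (k + 1), 5 * ip0 (H i.succ) (H i.succ) * ip0 (H j.succ) (H j.succ) := by
      refine Finset.sum_le_sum fun j _ => ?_
      have h1 := pb_ip0_cs (H i.succ) (H j.succ)
      have h2 := hcqj i j
      linarith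
    rw [← Finset.mul_sum, ← hb] at h8
    have e : (a + 4 * F + 5 * b) * ip0 (H i.succ) (H i.succ)
        = (a + 4 * F) * ip0 (H i.succ) (H i.succ) + 5 * ip0 (H i.succ) (H i.succ) * b := by ring
    rw [e]
    exact add_le_add h7 h8
  rw [Fin.sum_univ_succ, ← ha]
  have h9 := Finset.sum_le_sum fun (i : Fin (k + 1)) (_ : i ∈ Finset.univ) => hs i
  rw [← Finset.mul_sum, ← hb] at h9
  have e : a ^ 2 + 2 * (a * b + 4 * F * b) + 5 * b ^ 2
      = (a ^ 2 + (a + 4 * F) * b) + (a + 4 * F + 5 * b) * b := by ring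
  rw [e]
  exact add_le_add hz h9

end Mat

/-- the final algebraic inequality -/
theorem pb_alg (n r κ a b F S m Q1 Q2 x l V0 al th ZY ZZn kk : ℝ) (hn : 0 < n) (hr : 0 < r)
    (hx : 0 ≤ x) (hκ : κ = r * (1 + x)) (hm : m = x * r) (ha : 0 ≤ a) (hb : 0 ≤ b)
    (hS : S ≤ (a ^ 2 + 2 * (a * b + 4 * F * b) + 5 * b ^ 2) + n * (m * a)) (hF : 0 ≤ F)
    (hth : th = a + b) (hal : al = b + a / (1 + x)) (hZY : ZY = m * a / κ + n * κ)
    (hS1 : ZZn = S) (h1 : a ≤ n * F) (h2 : F ≤ r * (l * Q1)) (h3 : b ≤ kk * n * (r * (l * V0)))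
    (hQ2 : Q2 = (n + 8) * Q1 + 5 * kk * n * V0 + n * Q1 / (1 + x)) :
    0 ≤ al ∧ ZZn - th * ZY ≤ al * (r * (l * Q2 - n * (1 + x))) := by
  have hx1 : 0 < 1 + x := by linarith
  obtain ⟨ρ, hρ⟩ : ∃ ρ : ℝ, ρ = 1 / (1 + x) := ⟨_, rfl⟩
  have hρ0 : 0 < ρ := by rw [hρ]; positivity
  have hρ1 : ρ * (1 + x) = 1 := by rw [hρ]; field_simp
  have hal' : al = b + a * ρ := by rw [hal, hρ]; ring
  have hal0 : 0 ≤ al := by rw [hal']; positivity
  refine ⟨hal0, ?_⟩
  have hmκ : m * a / κ = x * ρ * a := by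
    rw [hm, hκ, hρ]
    field_simp
  have hxρ : x * ρ = 1 - ρ := by linarith [hρ1, mul_comm x ρ, mul_add ρ 1 x]
  have hZY' : ZY = (1 - ρ) * a + n * (r * (1 + x)) := by rw [hZY, hmκ, hxρ, hκ]
  have hm' : n * (m * a) = n * (r * (1 + x)) * ((1 - ρ) * a) := by
    rw [hm, ← hxρ]
    have : r * (1 + x) * (x * ρ * a) = r * x * a * (ρ * (1 + x)) := by ring
    have h4 : n * (r * (1 + x)) * (x * ρ * a) = n * (r * x * a * (ρ * (1 + x))) := by ring
    rw [h4, hρ1]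
    ring
  have e1 : ZZn - th * ZY ≤ al * (a + ρ * a + 8 * F + 5 * b - n * (r * (1 + x))) := by
    rw [hS1, hth, hZY', hal']
    have hρa : 0 ≤ (a * ρ) * (ρ * a + 8 * F + 5 * b) := by positivity
    nlinarith [hS, hm', hρa]
  refine e1.trans (mul_le_mul_of_nonneg_left ?_ hal0)
  have hQ2' : Q2 = (n + 8) * Q1 + 5 * kk * n * V0 + n * Q1 * ρ := by rw [hQ2, hρ]; ring
  have h5 : a ≤ n * (r * (l * Q1)) := h1.trans (mul_le_mul_of_nonneg_left h2 hn.le)
  have h6 : ρ * a ≤ ρ * (n * (r * (l * Q1))) := mul_le_mul_of_nonneg_left h5 hρ0.le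
  rw [hQ2']
  nlinarith [h5, h6, h2, h3]

/-- module PB1 -/
theorem hPB1 (hFRM : StFRM) (hSQF : StSQF) (hSPX : StSPX) (hSQC : StSQC) : StPB1 := by
  intro n N k hN p gp A r L x₀ hA l hl0 hl1 hR x hx
  have hn16 : 16 ≤ n := gp.n16
  have hn1 : 1 ≤ n := by omega
  have hn2 : 2 ≤ n := by omega
  have hnR : (0 : ℝ) < n := by exact_mod_cast (by omega : 0 < n)
  have hr : 0 < r := hA.r0
  obtain ⟨hx0, hT0, -, hU, -⟩ := hSQC n N k hN p gp A r L x₀ hA l hl0 hl1 hR x _ hx rfl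
  obtain ⟨-, e, hNF, hUN, hm0, -⟩ := hFRM n N k hN hn1 A r L x₀ hA
  obtain ⟨H, hH⟩ : ∃ H : Fin (k + 2) → Fin n → Fin n → ℝ, H = fun α => kn A (e α) := ⟨_, rfl⟩
  rw [← hH] at hNF
  obtain ⟨h1, h2, h3, h4, h5, h6⟩ := hSQF n N (k + 2) hn1 A H r e x₀ hNF _ _ rfl rfl
  have hmz : ∀ j : Fin (k + 1), Helper35.HC.mt (H j.succ) = 0 := by
    intro j
    have := h2 j.succ
    rw [hm0 j] at this
    rcases mul_eq_zero.mp this.symm with h | h
    · exact absurd h hnR.ne'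
    · exact h
  have hmm : ∑ α, Helper35.HC.mt (H α) ^ 2 = Helper35.HC.mt (H 0) ^ 2 := by
    rw [Fin.sum_univ_succ]
    simp [hmz]
  have hM : lin (fun α => Helper35.HC.mt (H α)) H = fun i j => Helper35.HC.mt (H 0) * H 0 i j := by
    funext i j
    unfold lin
    rw [Fin.sum_univ_succ]
    simp [hmz]
  rw [hM, pb_ip0_smul, hmm] at h5
  rw [hM, pb_ip0_smul] at h6
  rw [hmm] at h3
  have hx' : Helper35.HC.mt (H 0) ^ 2 = x * r := by
    rw [hx, h3]
    field_simp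
    ring
  rw [hx'] at h3 h5 h6
  have hP : p.P x = p.P (YY A / (n ^ 2 * r) - 1) := by rw [← hx]
  -- the region for one unit normal
  have hreg : ∀ α : Fin (k + 2), ∀ c d, OP c d →
      bil (H α) c d ^ 2 + p.E / n * ip0 (H α) (H α)
        ≤ r * (l * (p.J (Helper35.HC.mt (H α) ^ 2 / r) + p.P x)) := by
    intro α c d hcd
    have h := hR (e α) (hUN α) c d hcd
    rw [h1 α, h2 α, ← hx] at h
    have hX : ((n : ℝ) * Helper35.HC.mt (H α)) ^ 2 / (n ^ 2 * r) = Helper35.HC.mt (H α) ^ 2 / r := by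
      field_simp
    rw [hX] at h
    have he : 0 ≤ l * (p.e x * (thA2 A / (n * r))) :=
      mul_nonneg hl0.le (mul_nonneg (gp.e0 x hx0) hT0)
    have h' : (bil (H α) c d ^ 2 + p.E / n * ip0 (H α) (H α)) / r
        ≤ l * (p.J (Helper35.HC.mt (H α) ^ 2 / r) + p.P x) := by linarith
    rw [div_le_iff₀ hr] at h'
    linarith
  obtain ⟨F, hF⟩ : ∃ F : ℝ, F = r * (l * (p.J x + p.P x)) := ⟨_, rfl⟩
  obtain ⟨G, hG⟩ : ∃ G : ℝ, G = r * (l * (p.J 0 + p.P x)) := ⟨_, rfl⟩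
  have hreg0 : ∀ c d, OP c d → bil (H 0) c d ^ 2 + p.E / n * ip0 (H 0) (H 0) ≤ F := by
    intro c d hcd
    have h := hreg 0 c d hcd
    have : Helper35.HC.mt (H 0) ^ 2 / r = x := by rw [hx']; field_simp
    rw [this] at h
    rw [hF]
    exact h
  have hregj : ∀ j : Fin (k + 1), ∀ c d, OP c d →
      bil (H j.succ) c d ^ 2 + p.E / n * ip0 (H j.succ) (H j.succ) ≤ G := by
    intro j c d hcd
    have h := hreg j.succ c d hcd
    have : Helper35.HC.mt (H j.succ) ^ 2 / r = 0 := by rw [hmz j]; simp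
    rw [this] at h
    rw [hG]
    exact h
  obtain ⟨ha0, hF0, haF, hcqK⟩ := hSPX n hn2 (H 0) p.E F (hNF.sy 0) gp.E0.le hreg0
  have hbj : ∀ j : Fin (k + 1), ip0 (H j.succ) (H j.succ) ≤ n * G := by
    intro j
    obtain ⟨h0, -, hb, -⟩ := hSPX n hn2 (H j.succ) p.E G (hNF.sy _) gp.E0.le (hregj j)
    have : 0 ≤ p.E * ip0 (H j.succ) (H j.succ) := mul_nonneg gp.E0.le h0
    linarith
  have haF' : ip0 (H 0) (H 0) ≤ n * F := by
    have : 0 ≤ p.E * ip0 (H 0) (H 0) := mul_nonneg gp.E0.le ha0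
    linarith
  have hcqj : ∀ i j : Fin (k + 1), cq (H i.succ) (H j.succ)
      ≤ 4 * (ip0 (H i.succ) (H i.succ) * ip0 (H j.succ) (H j.succ)) := by
    intro i j
    obtain ⟨-, -, -, hc⟩ := hSPX n hn2 (H i.succ) 0 (ip0 (H i.succ) (H i.succ)) (hNF.sy _) le_rfl
      (fun c d hcd => by simpa using pb_bil_le (H i.succ) c d hcd)
    have := (hc (H j.succ) (hNF.sy _)).1
    simp only [zero_div, zero_mul, sub_zero] at this
    linarith
  obtain ⟨b, hb⟩ : ∃ b : ℝ, b = ∑ j : Fin (k + 1), ip0 (H j.succ) (H j.succ) := ⟨_, rfl⟩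
  have hb0 : 0 ≤ b := by
    rw [hb]; exact Finset.sum_nonneg fun j _ => pb_ip0_nonneg _
  have hbG : b ≤ (k + 1) * n * G := by
    rw [hb]
    refine (Finset.sum_le_sum fun j _ => hbj j).trans (le_of_eq ?_)
    simp
    ring
  have hθ : thA2 A = ip0 (H 0) (H 0) + b := by
    rw [h4, Fin.sum_univ_succ, hb]
  have hrow : ∀ j : Fin (k + 1), cq (H 0) (H j.succ) ≤ 4 * F * ip0 (H j.succ) (H j.succ) ∧
      cq (H j.succ) (H 0) ≤ 4 * F * ip0 (H j.succ) (H j.succ) := by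
    intro j
    obtain ⟨hc1, hc2, -⟩ := hcqK (H j.succ) (hNF.sy _)
    have hE : 0 ≤ p.E / n * ip0 (H 0) (H 0) := mul_nonneg (div_nonneg gp.E0.le hnR.le) ha0
    have hj : 0 ≤ ip0 (H j.succ) (H j.succ) := pb_ip0_nonneg _
    have : 0 ≤ (p.E / n * ip0 (H 0) (H 0)) * ip0 (H j.succ) (H j.succ) := mul_nonneg hE hj
    constructor
    · nlinarith
    · rw [hc2]; nlinarith
  have hsum := pb_sum H F b hb hrow hcqj
  have hκ : 0 < x * r + r := by positivity
  have hYY : YY A = n ^ 2 * (r * (1 + x)) := by rw [h3]; ring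
  have hr1 : 0 < r * (1 + x) := by positivity
  have hZY : ZZ A / YY A = (x * r) * ip0 (H 0) (H 0) / (r * (1 + x)) + n * (r * (1 + x)) := by
    rw [h5, hYY]
    have : x * r + r = r * (1 + x) := by ring
    rw [this]
    field_simp
  have hal : al2 A = b + ip0 (H 0) (H 0) / (1 + x) := by
    have e1 : al2 A = thA2 A + YY A / n - ZZ A / YY A := by unfold al2 thA2; ring
    rw [e1, hZY, hθ, hYY]
    have hx1 : (1 + x) ≠ 0 := by positivity
    field_simp
    ring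
  have htop : F ≤ r * (l * (p.J 0 + p.K * x)) := by
    rw [hF]
    exact mul_le_mul_of_nonneg_left
      (mul_le_mul_of_nonneg_left (gp.top x x hx0 le_rfl) hl0.le) hr.le
  have hfin := pb_alg n r (r * (1 + x)) (ip0 (H 0) (H 0)) b F (Sq A - ZZ A / n) (x * r)
    (p.J 0 + p.K * x) _ x l (p.J 0 + p.P x) (al2 A) (thA2 A) (ZZ A / YY A) (Sq A - ZZ A / n)
    (k + 1) hnR hr hx0 rfl rfl ha0 hb0 (by rw [h6]; linarith) hF0 hθ hal hZY rfl haF' htop
    (by rw [← hG]; exact hbG) rfl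
  exact hfin

end Helper13.HG
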